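import Mathlib
import Pool.Agent.TH922.KC.Trans

/-!
# Algebraic dependence of ratios of forms
-/

set_option autoImplicit false

open MvPolynomial

namespace Pool.Agent.Helper96.VD

open Pool.Agent.TH922.KC

/-- `N + 2` forms of the same degree in `N + 1` variables satisfy a homogeneous relation. -/
theorem hom_rel {N D : ℕ} (hD : 0 < D) {ι : Type} [Fintype ι]
    (hι : N + 1 < Fintype.card ι) (W : ι → MvPolynomial (Fin (N + 1)) ℚ)
    (hW : ∀ i, (W i).IsHomogeneous D) :
    ∃ (j : ℕ) (G : MvPolynomial ι ℚ), G ≠ 0 ∧ G.IsHomogeneous j ∧ aeval W G = 0 := by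
  classical
  have hdep : ¬ AlgebraicIndependent ℚ W := by
    intro h
    have h1 := h.lift_cardinalMk_le_trdeg
    rw [MvPolynomial.trdeg_of_isDomain] at h1
    simp only [Cardinal.mk_fintype, Fintype.card_fin, Cardinal.lift_natCast,
      Nat.cast_le] at h1
    omega
  rw [algebraicIndependent_iff] at hdep
  push Not at hdep
  obtain ⟨G, hG, hG0⟩ := hdep
  obtain ⟨j, hj⟩ : ∃ j, homogeneousComponent j G ≠ 0 := by
    by_contra hcon
    push Not at hcon
    apply hG0
    rw [← sum_homogeneousComponent G]
    exact Finset.sum_eq_zero fun i _ => hcon i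
  refine ⟨j, homogeneousComponent j G, hj, homogeneousComponent_isHomogeneous j G, ?_⟩
  have h1 : homogeneousComponent (D * j) (aeval W G) = aeval W (homogeneousComponent j G) := by
    conv_lhs => rw [← sum_homogeneousComponent G]
    rw [map_sum, map_sum]
    have h2 : ∀ i, homogeneousComponent (D * j) (aeval W (homogeneousComponent i G))
        = if D * j = D * i then aeval W (homogeneousComponent i G) else 0 := by
      intro i
      have h3 : (aeval W (homogeneousComponent i G)).IsHomogeneous (D * i) :=
        (homogeneousComponent_isHomogeneous i G).aeval W hW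
      exact homogeneousComponent_of_mem ((mem_homogeneousSubmodule _ _).mpr h3)
    rw [Finset.sum_congr rfl fun i _ => h2 i]
    rw [Finset.sum_eq_single j]
    · rw [if_pos rfl]
    · intro i _ hij
      rw [if_neg]
      intro h
      exact hij (Nat.eq_of_mul_eq_mul_left hD h).symm
    · intro h
      rw [if_pos rfl]
      have : homogeneousComponent j G = 0 := by
        apply homogeneousComponent_eq_zero
        simpa using h
      rw [this, map_zero]
  rw [← h1, hG, map_zero]

lemma aeval_smul' {Ω : Type*} [Field Ω] [CharZero Ω] {ι : Type*} (x : ι → Ω) (c : Ω) {j : ℕ}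
    {G : MvPolynomial ι ℚ} (hG : G.IsHomogeneous j) :
    aeval (fun i => c * x i) G = c ^ j * aeval x G := by
  classical
  rw [aeval_def, aeval_def, eval₂_eq, eval₂_eq, Finset.mul_sum]
  refine Finset.sum_congr rfl fun d hd => ?_
  have h1 : ∑ i ∈ d.support, d i = j := by
    have h2 := hG (mem_support_iff.mp hd)
    rw [Finsupp.weight_apply] at h2
    simpa [Finsupp.sum] using h2
  simp only [mul_pow, Finset.prod_mul_distrib, Finset.prod_pow_eq_pow_sum, h1]
  ring

/-- a homogeneous relation makes the ratios dependent -/
theorem ratio_dep {Ω : Type*} [Field Ω] [CharZero Ω] {n : ℕ} (x : Option (Fin n) → Ω)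
    (hx : x none ≠ 0) {j : ℕ} (G : MvPolynomial (Option (Fin n)) ℚ) (hG0 : G ≠ 0)
    (hG : G.IsHomogeneous j) (h : aeval x G = 0) :
    ¬ AlgebraicIndependent ℚ (fun i => x (some i) / x none) := by
  intro hind
  have h1 : aeval (fun o => (x none)⁻¹ * x o) G = 0 := by
    rw [aeval_smul' x _ hG, h, mul_zero]
  let e : Option (Fin n) → MvPolynomial (Fin n) ℚ := fun o => o.elim 1 X
  have h2 : aeval (fun i => x (some i) / x none) (aeval e G) = 0 := by
    rw [← h1]
    have h3 : (aeval (fun i => x (some i) / x none)).comp (aeval e)
        = aeval (fun o => (x none)⁻¹ * x o) (R := ℚ) := by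
      apply algHom_ext
      intro o
      rw [AlgHom.comp_apply, aeval_X, aeval_X]
      cases o with
      | none => simp only [e, Option.elim]; rw [map_one, inv_mul_cancel₀ hx]
      | some i => simp only [e, Option.elim]; rw [aeval_X, div_eq_mul_inv, mul_comm]
    rw [← h3]
    rfl
  have h4 := (algebraicIndependent_iff.mp hind) _ h2
  -- dehomogenization is injective on forms
  apply hG0
  have hev : ∀ f : Option (Fin n) → ℚ,
      (@aeval ℚ ℚ (Option (Fin n)) _ _ DivisionRing.toRatAlgebra f) G = eval f G := by
    intro f
    rw [aeval_def, eval, coe_eval₂Hom]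
    congr 1
  have h5 : G * X none = 0 := by
    apply MvPolynomial.funext
    intro a
    rw [map_mul, eval_X, map_zero]
    by_cases ha : a none = 0
    · rw [ha, mul_zero]
    · have h6 : eval a G = (a none) ^ j * eval (fun o => (a none)⁻¹ * a o) G := by
        have h7 := aeval_smul' (fun o => (a none)⁻¹ * a o) (a none) hG
        rw [hev, hev] at h7
        rw [← h7]
        congr 2
        funext o
        rw [← mul_assoc, mul_inv_cancel₀ ha, one_mul]
      have h8 : eval (fun o => (a none)⁻¹ * a o) G = 0 := by
        have h9 : eval (fun i => (a none)⁻¹ * a (some i)) (aeval e G) = 0 := by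
          rw [h4, map_zero]
        rw [← h9]
        have h10 : (aeval (fun i => (a none)⁻¹ * a (some i))).comp (aeval e)
            = aeval (fun o => (a none)⁻¹ * a o) (R := ℚ) := by
          apply algHom_ext
          intro o
          rw [AlgHom.comp_apply, aeval_X, aeval_X]
          cases o with
          | none => simp only [e, Option.elim]; rw [map_one, inv_mul_cancel₀ ha]
          | some i => simp only [e, Option.elim]; rw [aeval_X]
        have h11 := DFunLike.congr_fun h10 G
        rw [AlgHom.comp_apply, aeval_eq_eval, aeval_eq_eval] at h11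
        exact h11.symm
      rw [h6, h8, mul_zero, zero_mul]
  rcases mul_eq_zero.mp h5 with h6 | h6
  · exact h6
  · exact absurd h6 (X_ne_zero none)

/-- few elements generate -/
theorem exists_gen {Ω : Type*} [Field Ω] [CharZero Ω] {ι : Type*} [Fintype ι] [DecidableEq ι]
    (ρ : ι → Ω) (n : ℕ)
    (h : ∀ f : Fin (n + 1) → ι, ¬ AlgebraicIndependent ℚ (fun i => ρ (f i))) :
    ∃ B : Finset ι, B.card ≤ n ∧ ∀ i, ρ i ∈ Lf (Set.range fun b : B => ρ b) := by
  classical
  let S : Finset (Finset ι) := Finset.univ.filter
    fun B => AlgebraicIndependent ℚ (fun b : B => ρ b)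
  have hS : S.Nonempty := by
    refine ⟨∅, ?_⟩
    simp only [S, Finset.mem_filter, Finset.mem_univ, true_and]
    have : IsEmpty {x // x ∈ (∅ : Finset ι)} := ⟨fun x => absurd x.2 (Finset.notMem_empty _)⟩
    exact algebraicIndependent_empty_type
  obtain ⟨B, hB, hmax⟩ := Finset.exists_max_image S Finset.card hS
  simp only [S, Finset.mem_filter, Finset.mem_univ, true_and] at hB hmax
  refine ⟨B, ?_, ?_⟩
  · by_contra hcon
    push Not at hcon
    have h1 : Fintype.card (Fin (n + 1)) ≤ Fintype.card B := by
      rw [Fintype.card_fin, Fintype.card_coe]; exact hcon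
    obtain ⟨g⟩ := Function.Embedding.nonempty_of_card_le h1
    exact h (fun i => (g i : ι)) (hB.comp g g.injective)
  · intro i
    by_cases hi : i ∈ B
    · exact Lf_of_mem ⟨⟨i, hi⟩, rfl⟩
    · rw [mem_Lf]
      by_contra hcon
      have h1 : AlgebraicIndependent ℚ (fun o : Option B => o.elim (ρ i) (fun b => ρ b)) :=
        (hB.option_iff_transcendental (ρ i)).mpr hcon
      have h2 : AlgebraicIndependent ℚ (fun b : ((insert i B : Finset ι)) => ρ b) := by
        have h3 := h1.comp (Finset.subtypeInsertEquivOption hi)
          (Finset.subtypeInsertEquivOption hi).injective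
        have h4 : (fun b : ((insert i B : Finset ι)) => ρ b)
            = (fun o : Option B => o.elim (ρ i) (fun b => ρ b)) ∘
              (Finset.subtypeInsertEquivOption hi) := by
          funext b
          simp only [Function.comp_apply, Finset.subtypeInsertEquivOption, Equiv.coe_fn_mk]
          split_ifs with hb
          · simp only [Option.elim]; rw [hb]
          · rfl
        rw [h4]
        exact h3
      have h3 := hmax _ h2
      rw [Finset.card_insert_of_notMem hi] at h3
      omega

end Pool.Agent.Helper96.VD
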