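import Mathlib
import Pool.Agent.Helper14D.Stm
import Pool.Agent.Helper96.VD.Dep

/-!
# Points on norm hypersurfaces over `κ(T)`: `S_count`
-/

set_option autoImplicit false

open Polynomial

namespace Pool.Agent.Helper96.VD

open Pool.Agent.TH922.KC Pool.Agent.Helper14C Pool.Agent.Helper14D

lemma WW_hom {N : ℕ} {τ : Type} [Fintype τ] {m : τ → ℕ}
    {u v : τ → MvPolynomial (Fin (N + 1)) ℚ} (M1 : ℕ)
    (hu : ∀ t, (u t).IsHomogeneous (m t)) (hv : ∀ t, (v t).IsHomogeneous (m t))
    (β : Ix N τ M1) : (WW u v M1 β).IsHomogeneous (1 + ∑ t, m t * M1) := by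
  unfold WW
  refine (MvPolynomial.isHomogeneous_X ℚ β.1).mul (MvPolynomial.IsHomogeneous.prod _ _ _ ?_)
  intro t _
  have h1 := ((hu t).pow (β.2 t : ℕ)).mul ((hv t).pow (M1 - (β.2 t : ℕ)))
  have h2 : m t * (β.2 t : ℕ) + m t * (M1 - (β.2 t : ℕ)) = m t * M1 := by
    rw [← mul_add]
    congr 1
    have := (β.2 t).2
    omega
  rw [h2] at h1
  exact h1

/-- the transcendence degree of the ratios -/
lemma ratios {N : ℕ} {τ : Type} [Fintype τ] {m : τ → ℕ}
    {u v : τ → MvPolynomial (Fin (N + 1)) ℚ} {M1 : ℕ}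
    (hu : ∀ t, (u t).IsHomogeneous (m t)) (hv : ∀ t, (v t).IsHomogeneous (m t))
    {Ω : Type} [Field Ω] [CharZero Ω] (w : Ix N τ M1 → Ω)
    (hrel : ∀ (d : ℕ) (F : MvPolynomial (Ix N τ M1) ℚ), F.IsHomogeneous d →
      MvPolynomial.aeval (WW u v M1) F = 0 → MvPolynomial.aeval w F = 0)
    (β0 : Ix N τ M1) (h0 : w β0 ≠ 0) (f : Fin (N + 1) → Ix N τ M1) :
    ¬ AlgebraicIndependent ℚ (fun i => w (f i) / w β0) := by
  classical
  let g : Option (Fin (N + 1)) → Ix N τ M1 := fun o => o.elim β0 f
  obtain ⟨j, G, hG0, hG, hGW⟩ := hom_rel (D := 1 + ∑ t, m t * M1) (by omega)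
    (ι := Option (Fin (N + 1))) (by rw [Fintype.card_option, Fintype.card_fin]; omega)
    (fun o => WW u v M1 (g o)) (fun o => WW_hom M1 hu hv _)
  have h1 := hrel j (MvPolynomial.rename g G) hG.rename_isHomogeneous (by
    rw [MvPolynomial.aeval_rename]; exact hGW)
  rw [MvPolynomial.aeval_rename] at h1
  exact ratio_dep (w ∘ g) h0 G hG0 hG h1

/-- `T` and the parameters are independent -/
lemma T_indep {κ : Type} [Field κ] [CharZero κ] {Ω : Type} [Field Ω] [CharZero Ω]
    [Algebra (FractionRing κ[X]) Ω] {β : Type} (b : β → κ) (hb : AlgebraicIndependent ℚ b) :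
    AlgebraicIndependent ℚ (fun o : Option β => o.elim
      (algebraMap (FractionRing κ[X]) Ω (algebraMap κ[X] (FractionRing κ[X]) X))
      (fun z => ((algebraMap (FractionRing κ[X]) Ω).comp (algebraMap κ (FractionRing κ[X])))
        (b z))) := by
  classical
  set K := FractionRing κ[X] with hK
  let ι : κ →+* Ω := (algebraMap K Ω).comp (algebraMap κ K)
  let T : Ω := algebraMap K Ω (algebraMap κ[X] K X)
  have hι : Function.Injective ι := ι.injective
  have h1 : AlgebraicIndependent ℚ (fun z : β => ι (b z)) := by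
    have := hb.map' (f := ι.toRatAlgHom) hι
    exact this
  refine (h1.option_iff_transcendental T).mpr ?_
  intro hal
  have htr : ∀ p : κ[X], p ≠ 0 → Polynomial.eval₂ ι T p ≠ 0 := by
    intro p hp h0
    have h2 : Polynomial.eval₂ ι T p = algebraMap K Ω (algebraMap κ[X] K p) := by
      have h3 : ((algebraMap K Ω).comp (algebraMap κ[X] K)) = Polynomial.eval₂RingHom ι T := by
        apply Polynomial.ringHom_ext
        · intro c
          simp only [RingHom.comp_apply, Polynomial.coe_eval₂RingHom, Polynomial.eval₂_C]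
          rfl
        · simp only [RingHom.comp_apply, Polynomial.coe_eval₂RingHom, Polynomial.eval₂_X]
          rfl
      have h4 := RingHom.congr_fun h3 p
      simp only [RingHom.comp_apply, Polynomial.coe_eval₂RingHom] at h4
      exact h4.symm
    rw [h2] at h0
    have h5 := (map_eq_zero _).mp h0
    rw [map_eq_zero_iff _ (IsFractionRing.injective κ[X] K)] at h5
    exact hp h5
  have h2 : Algebra.adjoin ℚ (Set.range (fun z : β => ι (b z))) ≤ (ι.toRatAlgHom).range := by
    rw [Algebra.adjoin_le_iff]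
    rintro _ ⟨z, rfl⟩
    exact ⟨b z, rfl⟩
  obtain ⟨P, hP0, hP⟩ := hal
  let A0 := Algebra.adjoin ℚ (Set.range (fun z : β => ι (b z)))
  let e : κ ≃ₐ[ℚ] (ι.toRatAlgHom : κ →ₐ[ℚ] Ω).range :=
    AlgEquiv.ofInjective (ι.toRatAlgHom) hι
  let ψ : A0 →+* κ := (e.symm.toAlgHom.comp (Subalgebra.inclusion h2)).toRingHom
  have hψ : ι.comp ψ = algebraMap A0 Ω := by
    ext z
    have : e (ψ z) = Subalgebra.inclusion h2 z := by
      simp [ψ]
    have h3 := congrArg Subtype.val this
    exact h3
  have hψinj : Function.Injective ψ := by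
    intro z w hzw
    have := congrArg ι hzw
    rw [← RingHom.comp_apply, ← RingHom.comp_apply, hψ] at this
    exact Subtype.ext this
  apply htr (P.map ψ)
  · rwa [Ne, Polynomial.map_eq_zero_iff hψinj]
  · rw [Polynomial.eval₂_map, hψ]
    exact hP

theorem t_count : S_count := by
  classical
  intro κ _ _ hroots L _ _ _ N τ _ _ m u v M1 t0 q a b w hN hq hM1 hu hv hb hw hrel hup hdet
  set K := FractionRing κ[X] with hK
  have hcK : CharZero K := charZero_of_injective_algebraMap (IsFractionRing.injective κ[X] K)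
  have hcL : CharZero L := charZero_of_injective_algebraMap (algebraMap K L).injective
  let Ω := AlgebraicClosure L
  have hcΩ : CharZero Ω := charZero_of_injective_algebraMap (algebraMap L Ω).injective
  let T : L := algebraMap K L (algebraMap κ[X] K X)
  have hTa : T - (a : L) = algebraMap K L (algebraMap κ[X] K (X - C (algebraMap ℚ κ a))) := by
    rw [map_sub, map_sub]
    congr 1
    have h3 : algebraMap K L (algebraMap κ[X] K (C (algebraMap ℚ κ a)))
      = ((algebraMap K L).comp ((algebraMap κ[X] K).comp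
          ((C : κ →+* κ[X]).comp (algebraMap ℚ κ)))) a := rfl
    rw [h3]
    exact (map_ratCast _ _).symm
  have hTa0 : T - (a : L) ≠ 0 := by
    intro h
    rw [hTa] at h
    have h2 := (map_eq_zero _).mp h
    rw [map_eq_zero_iff _ (IsFractionRing.injective κ[X] K)] at h2
    exact X_sub_C_ne_zero _ h2
  let J : Finset (Ix N τ M1) := Finset.univ.filter (fun β : Ix N τ M1 => (β.2 t0 : ℕ) < M1)
  let ℓ : ℕ → L := fun k => ∑ β ∈ J, algebraMap K L (algebraMap κ[X] K (C (b k β))) * w β
  have hdet' : (mat q 1 (T - (a : L)) ℓ).det = 0 := hdet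
  obtain ⟨ζ, hζ⟩ := hroots q hq.ne'
  have hζL : IsPrimitiveRoot (algebraMap K L (algebraMap κ K ζ)) q :=
    (hζ.map_of_injective (algebraMap κ K).injective).map_of_injective (algebraMap K L).injective
  obtain ⟨θ, hθ, hsum⟩ : ∃ θ : Ω, θ ^ q = algebraMap L Ω (T - (a : L)) ∧
      ∑ k ∈ Finset.range q, θ ^ k * algebraMap L Ω (ℓ k) = 0 := by
    obtain ⟨θ0, hθ0⟩ := IsAlgClosed.exists_pow_nat_eq (algebraMap L Ω (T - (a : L))) hq
    have h00 : θ0 ≠ 0 := by
      rintro rfl
      rw [zero_pow hq.ne'] at hθ0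
      exact hTa0 ((map_eq_zero _).mp hθ0.symm)
    have h1 := congrArg (algebraMap L Ω) hdet'
    rw [map_mat, map_one, map_zero, ← hθ0] at h1
    obtain ⟨θ, hθ, h2⟩ := det_zero (hζL.map_of_injective (algebraMap L Ω).injective) h00 _ h1
    exact ⟨θ, hθ.trans hθ0, h2⟩
  have hθK : θ ^ q = algebraMap K Ω (algebraMap κ[X] K (X - C (algebraMap ℚ κ a))) := by
    rw [hθ, hTa]
    exact (IsScalarTower.algebraMap_apply K L Ω _).symm
  have hθ0 : θ ≠ 0 := by
    intro h
    rw [h, zero_pow hq.ne'] at hθ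
    exact hTa0 ((map_eq_zero _).mp hθ.symm)
  have hk1 := kum1 (F := L) hθ0 hq hζL hθ
  set d := Module.finrank L (IntermediateField.adjoin L {θ}) with hd
  obtain ⟨η, hη⟩ := hk1.1
  have hdq : d ∣ q := hk1.2 _ ⟨_, hθ⟩
  have hd0 : 0 < d := Nat.pos_of_ne_zero fun h => by
    rw [h, zero_dvd_iff] at hdq
    exact hq.ne' hdq
  have hdle : d ≤ q := Nat.le_of_dvd hq hdq
  -- the base coordinate
  obtain ⟨β0, hβ0, hw0⟩ : ∃ β0 : Ix N τ M1, (β0.2 t0 : ℕ) < M1 ∧ w β0 ≠ 0 := by
    obtain ⟨β, hβ⟩ : ∃ β, w β ≠ 0 := by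
      by_contra hcon
      push Not at hcon
      exact hw (funext hcon)
    by_cases h : (β.2 t0 : ℕ) < M1
    · exact ⟨β, h, hβ⟩
    · let β' : Ix N τ M1 := (β.1, Function.update β.2 t0 ⟨M1 - 1, by omega⟩)
      have h1 : (β'.2 t0 : ℕ) < M1 := by
        simp only [β', Function.update_self]
        omega
      refine ⟨β', h1, ?_⟩
      intro h2
      apply hβ
      have h3 := hup β' h1
      have h4 : up t0 β' h1 = β := by
        apply Prod.ext
        · rfl
        · simp only [up, β']
          funext t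
          by_cases ht : t = t0
          · subst ht
            rw [Function.update_self]
            apply Fin.ext
            simp only [Function.update_self]
            have := (β.2 t).2
            omega
          · rw [Function.update_of_ne ht, Function.update_of_ne ht]
      rw [h4, h2, mul_zero] at h3
      exact h3
  let ρL : Ix N τ M1 → L := fun β => w β / w β0
  let ρ : Ix N τ M1 → Ω := fun β => algebraMap L Ω (ρL β)
  have hρ0 : ρL β0 = 1 := div_self hw0
  let wΩ : Ix N τ M1 → Ω := fun β => algebraMap L Ω (w β)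
  have hwΩ0 : wΩ β0 ≠ 0 := by
    simp only [wΩ]
    rwa [Ne, map_eq_zero]
  have hρw : ∀ β, ρ β = wΩ β / wΩ β0 := fun β => map_div₀ _ _ _
  have hdep : ∀ f : Fin (N + 1) → Ix N τ M1, ¬ AlgebraicIndependent ℚ (fun i => ρ (f i)) := by
    intro f
    have h1 := ratios hu hv (Ω := Ω) wΩ (by
      intro dd F hF hF0
      have h2 := hrel dd F hF hF0 (algebraMap ℚ L)
      have h3 := congrArg (algebraMap L Ω) h2
      rw [map_zero, MvPolynomial.eval₂_comp_left] at h3
      rw [MvPolynomial.aeval_def]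
      have h4 : (algebraMap L Ω).comp (algebraMap ℚ L) = algebraMap ℚ Ω := Subsingleton.elim _ _
      rw [h4] at h3
      exact h3) β0 hwΩ0 f
    have h2 : (fun i => ρ (f i)) = fun i => wΩ (f i) / wΩ β0 := funext fun i => hρw _
    rw [h2]
    exact h1
  obtain ⟨B, hBc, hBg⟩ := exists_gen ρ N hdep
  let ι : κ →+* Ω := (algebraMap K Ω).comp (algebraMap κ K)
  let TΩ : Ω := algebraMap K Ω (algebraMap κ[X] K X)
  let βt := Fin q × Ix N τ M1
  let sel : Fin d → βt := fun s => (⟨s, s.2.trans_le hdle⟩, β0)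
  have hsel : Function.Injective sel := by
    intro s s' h
    have h1 : (s : ℕ) = s' := congrArg (fun z : βt => (z.1 : ℕ)) h
    exact Fin.ext h1
  let Y := B ⊕ {z : βt // z ∉ Set.range sel}
  let y : Y → Ω := Sum.elim (fun β => ρ β) (fun z => ι (b z.1.1 z.1.2))
  set F := Lf (Set.range y) with hF
  have hρF : ∀ β, ρ β ∈ F := by
    intro β
    refine isAlg_mono (s := Set.range fun b : B => ρ b) ?_ (hBg β)
    rintro _ ⟨b, rfl⟩
    exact ⟨Sum.inl b, rfl⟩
  have hTF : TΩ ∈ F := by
    have h1 : TΩ = ρ (up t0 β0 hβ0) := by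
      have h2 := hup β0 hβ0
      simp only [ρ, ρL]
      rw [h2, mul_div_assoc, div_self hw0, mul_one]
      exact IsScalarTower.algebraMap_apply K L Ω _
    rw [h1]
    exact hρF _
  have hbF : ∀ z : βt, z ∉ Set.range sel → ι (b z.1 z.2) ∈ F := fun z hz =>
    Lf_of_mem ⟨Sum.inr ⟨z, hz⟩, rfl⟩
  have hθF : θ ∈ F := by
    have h1 : θ ^ q ∈ F := by
      rw [hθK, map_sub, map_sub]
      refine F.sub_mem hTF ?_
      have h2 : algebraMap K Ω (algebraMap κ[X] K (C (algebraMap ℚ κ a))) = (a : Ω) := by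
        have h3 : algebraMap K Ω (algebraMap κ[X] K (C (algebraMap ℚ κ a)))
          = ((algebraMap K Ω).comp ((algebraMap κ[X] K).comp
              ((C : κ →+* κ[X]).comp (algebraMap ℚ κ)))) a := rfl
        rw [h3]
        exact map_ratCast _ _
      rw [h2]
      exact Lf_of_alg (isAlgebraic_algebraMap a)
    rw [mem_Lf] at h1 ⊢
    exact h1.of_pow hq
  have hηF : algebraMap L Ω η ∈ F := by
    rw [← hη]
    exact F.pow_mem hθF _
  have hint : IsIntegral L θ := by
    refine IsIntegral.of_pow hd0 ?_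
    rw [hη]
    exact isIntegral_algebraMap
  have hℓ : ∀ k, algebraMap L Ω (ℓ k) = wΩ β0 * ∑ β ∈ J, ι (b k β) * ρ β := by
    intro k
    simp only [ℓ]
    rw [map_sum, Finset.mul_sum]
    refine Finset.sum_congr rfl fun β _ => ?_
    rw [map_mul, hρw]
    have h1 : algebraMap L Ω (algebraMap K L (algebraMap κ[X] K (C (b k β)))) = ι (b k β) := by
      rw [← IsScalarTower.algebraMap_apply K L Ω]
      rfl
    rw [h1, mul_left_comm, mul_div_cancel₀ _ hwΩ0]
  have hβ0J : β0 ∈ J := by
    simp only [J, Finset.mem_filter, Finset.mem_univ, true_and]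
    exact hβ0
  have hselF : ∀ (s : ℕ) (hs : s < d), ι (b s β0) ∈ F := by
    intro s hs
    obtain ⟨mm, hm⟩ := hdq
    have hm0 : 0 < mm := Nat.pos_of_ne_zero fun h => by
      rw [h, mul_zero] at hm
      exact hq.ne' hm
    have h1 := hsum
    rw [hm, mul_comm d mm] at h1
    have h2 := kill hint hd hη _ h1 s hs
    have h3 := congrArg (algebraMap L Ω) h2
    rw [map_sum, map_zero] at h3
    have h4 : ∀ t, algebraMap L Ω (η ^ t * ℓ (s + d * t))
        = wΩ β0 * (algebraMap L Ω η ^ t * ∑ β ∈ J, ι (b (s + d * t) β) * ρ β) := by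
      intro t
      rw [map_mul, map_pow, hℓ]
      ring
    rw [Finset.sum_congr rfl (fun t _ => h4 t), ← Finset.mul_sum] at h3
    have h3' := (mul_eq_zero.mp h3).resolve_left hwΩ0
    obtain ⟨m', rfl⟩ := Nat.exists_eq_add_of_le' hm0
    rw [Finset.sum_range_succ', pow_zero, one_mul, ← Finset.add_sum_erase _ _ hβ0J] at h3'
    have h5 : ρ β0 = 1 := by
      simp only [ρ]
      rw [hρ0, map_one]
    rw [h5, mul_one, mul_zero, add_zero] at h3'
    have h6 : ι (b s β0) = -(∑ t ∈ Finset.range m', algebraMap L Ω η ^ (t + 1) *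
        ∑ β ∈ J, ι (b (s + d * (t + 1)) β) * ρ β)
        - ∑ β ∈ J.erase β0, ι (b s β) * ρ β := by
      linear_combination h3'
    rw [h6]
    refine F.sub_mem (F.neg_mem (F.sum_mem fun t ht => F.mul_mem (F.pow_mem hηF _)
      (F.sum_mem fun β _ => F.mul_mem ?_ (hρF β)))) (F.sum_mem fun β hβ => F.mul_mem ?_ (hρF β))
    · have hlt : s + d * (t + 1) < q := by
        have h7 : t + 1 < m' + 1 := by
          have := Finset.mem_range.mp ht
          omega
        have h8 : s + d * (t + 1) < d * (m' + 1) := by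
          have h9 : d * (t + 1 + 1) ≤ d * (m' + 1) := Nat.mul_le_mul_left _ h7
          have h10 : d * (t + 1 + 1) = d * (t + 1) + d := by ring
          omega
        rw [← hm] at h8
        exact h8
      refine hbF (⟨_, hlt⟩, β) ?_
      rintro ⟨s', h⟩
      have h7 : (s' : ℕ) = s + d * (t + 1) := congrArg (fun z : βt => (z.1 : ℕ)) h
      have h8 : (s' : ℕ) < d := s'.2
      have h9 : d * (t + 1) = d * t + d := by ring
      omega
    · refine hbF (⟨s, hs.trans_le hdle⟩, β) ?_
      rintro ⟨s', h⟩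
      have h1 : β0 = β := congrArg (fun z : βt => z.2) h
      exact (Finset.ne_of_mem_erase hβ) h1.symm
  have hallF : ∀ z : βt, ι (b z.1 z.2) ∈ F := by
    intro z
    by_cases hz : z ∈ Set.range sel
    · obtain ⟨s, rfl⟩ := hz
      exact hselF s s.2
    · exact hbF z hz
  have hwI := T_indep (Ω := Ω) (fun z : βt => b z.1 z.2) hb
  have hfin := card_le_of_alg _ hwI y (by
    intro o
    cases o with
    | none => exact hTF
    | some z => exact hallF z)
  have hY : Fintype.card Y + d = B.card + Fintype.card βt := by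
    have e2 : Fintype.card {z : βt // z ∉ Set.range sel} + d = Fintype.card βt := by
      have h1 : Fintype.card {z : βt // z ∈ Set.range sel} = d := by
        have h2 : Fintype.card {z : βt // z ∈ Set.range sel} = Fintype.card (Fin d) :=
          Fintype.card_congr (Equiv.ofInjective sel hsel).symm
        rw [h2, Fintype.card_fin]
      have h3 : Fintype.card {z : βt // z ∉ Set.range sel}
          = Fintype.card βt - Fintype.card {z : βt // z ∈ Set.range sel} :=
        Fintype.card_subtype_compl _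
      have h2 : Fintype.card {z : βt // z ∈ Set.range sel} ≤ Fintype.card βt :=
        Fintype.card_subtype_le _
      omega
    simp only [Y, Fintype.card_sum, Fintype.card_coe]
    omega
  rw [Fintype.card_option] at hfin
  have hdN : d ≤ N - 1 := by omega
  have hkum := kummer (L := L) (Ω := Ω) hroots (fun _ : Fin 1 => θ) (fun _ => q) (fun _ => hq)
    (fun _ => algebraMap ℚ κ a) (fun i i' _ => Subsingleton.elim _ _) (fun _ => hθK)
  rw [Fin.prod_univ_one, Fin.prod_univ_one] at hkum
  exact hkum.trans (Nat.mul_dvd_mul_right (Nat.dvd_factorial hd0 hdN) _)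

end Pool.Agent.Helper96.VD
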